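import Mathlib

set_option autoImplicit false

open Set Filter Topology Function

namespace Pool.Agent.Results.MP_750e22_gt.PrimeCase

/-- selectively sequentially pseudocompact -/
def SSP (X : Type) [TopologicalSpace X] : Prop :=
  ∀ U : ℕ → Set X, (∀ n, IsOpen (U n) ∧ (U n).Nonempty) → ∃ x : ℕ → X, (∀ n, x n ∈ U n) ∧
    ∃ (ψ : ℕ → ℕ) (a : X), StrictMono ψ ∧ Tendsto (x ∘ ψ) atTop (𝓝 a)

theorem baire {X : Type} [TopologicalSpace X] [RegularSpace X] [Nonempty X] (hX : SSP X)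
    (P : ℕ → Set X) (h : ∀ n S, IsGδ S → S.Nonempty →
      ∃ S' ⊆ S, IsGδ S' ∧ S'.Nonempty ∧ Disjoint S' (P n)) : ∃ y, ∀ n, y ∉ P n := by
  have step : ∀ (n : ℕ) (S : {S : Set X // IsGδ S ∧ S.Nonempty}), ∃ W : ℕ → Set X,
      (∀ j, IsOpen (W j)) ∧ (⋂ j, W j).Nonempty ∧ (⋂ j, W j) ⊆ S.1 ∧
      Disjoint (⋂ j, closure (W j)) (P n) := fun n S => by
    obtain ⟨S', a, b, ⟨x, hx⟩, d⟩ := h n S.1 S.2.1 S.2.2
    obtain ⟨U, hU, rfl⟩ := b.eq_iInter_nat
    have : ∀ j, ∃ W, IsOpen W ∧ x ∈ W ∧ closure W ⊆ U j := fun j => by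
      obtain ⟨t, t1, t2, t3⟩ := exists_mem_nhds_isClosed_subset ((hU j).mem_nhds (mem_iInter.1 hx j))
      exact ⟨interior t, isOpen_interior, mem_interior_iff_mem_nhds.2 t1,
        (closure_minimal interior_subset t2).trans t3⟩
    choose W w1 w2 w3 using this
    exact ⟨W, w1, ⟨x, mem_iInter.2 w2⟩, (iInter_mono fun j => subset_closure.trans (w3 j)).trans a,
      d.mono_left (iInter_mono w3)⟩
  choose W w1 w2 w3 w4 using step
  let S : ℕ → {S : Set X // IsGδ S ∧ S.Nonempty} := fun n => Nat.rec ⟨univ, .univ, univ_nonempty⟩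
    (fun k S => ⟨⋂ j, W k S j, .iInter fun j => (w1 k S j).isGδ, w2 k S⟩) n
  have hS : Antitone fun n => (S n).1 := antitone_nat_of_succ_le fun n => w3 n (S n)
  obtain ⟨x, hx, ψ, a, hψ, ha⟩ := hX (fun k => ⋂ i ∈ Iic k, ⋂ j ∈ Iic k, W i (S i) j) fun k =>
    ⟨(finite_Iic k).isOpen_biInter fun i _ => (finite_Iic k).isOpen_biInter fun j _ => w1 _ _ _, by
      obtain ⟨y, hy⟩ := (S (k + 1)).2.2
      exact ⟨y, mem_iInter₂.2 fun i hi => mem_iInter₂.2 fun j _ =>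
        mem_iInter.1 (hS (Nat.succ_le_succ hi) hy) j⟩⟩
  refine ⟨a, fun n => disjoint_left.1 (w4 n (S n)) (mem_iInter.2 fun j =>
    mem_closure_of_tendsto ha ?_)⟩
  filter_upwards [eventually_ge_atTop (max n j)] with k hk
  have := hψ.id_le k
  exact mem_iInter₂.1 (mem_iInter₂.1 (hx (ψ k)) n ((le_max_left _ _).trans (hk.trans this))) j
    ((le_max_right _ _).trans (hk.trans this))

variable {G : Type} [AddCommGroup G] [TopologicalSpace G] [IsTopologicalAddGroup G]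

theorem exists_phi' (hG : SSP G) (p : ℕ) [Fact p.Prime] {V : Type} [AddCommGroup V]
    [Module (ZMod p) V] (q : G →+ V) (hp : ∀ S : Set G, IsGδ S → 0 ∈ S → ∃ x ∈ S, q x ≠ 0) :
    ∃ φ : G →+ ZMod p, ∀ T : Set G, IsGδ T → 0 ∈ T → ∃ t ∈ T, φ t ≠ 0 := by
  classical
  by_contra hn
  push Not at hn
  choose T t1 t2 t3 using hn
  let b := Module.Basis.ofVectorSpace (ZMod p) V
  let c := fun i => (b.coord i).toAddMonoidHom.comp q
  let s := fun x : G => (b.repr (q x)).support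
  have key : ∀ S : Set G, IsGδ S → ∀ x ∈ S, ∃ S' ⊆ S, IsGδ S' ∧ x ∈ S' ∧
      ∀ y ∈ S', ∀ i ∈ s x, c i y = c i x := fun S hS x hx => by
    refine ⟨S ∩ ⋂ i ∈ s x, (fun y => y - x) ⁻¹' T (c i), inter_subset_left,
      hS.inter (.biInter (s x).countable_toSet fun i _ => (t1 _).preimage (by fun_prop)),
      ⟨hx, mem_iInter₂.2 fun i _ => by simpa using t2 _⟩, fun y hy i hi => ?_⟩
    have := t3 _ _ (mem_iInter₂.1 hy.2 i hi)
    rwa [map_sub, sub_eq_zero] at this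
  have sub : ∀ x y, (∀ i ∈ s x, c i y = c i x) → s x ⊆ s y := fun x y h i hi => by
    have h1 : c i x ≠ 0 := Finsupp.mem_support_iff.1 hi
    exact Finsupp.mem_support_iff.2 ((h i hi).symm ▸ h1 : c i y ≠ 0)
  obtain ⟨y, hy⟩ := baire hG (fun n => {x | (s x).card ≤ n}) fun n S hS hne => by
    by_cases h : ∃ x ∈ S, n < (s x).card
    · obtain ⟨x, hx, h⟩ := h
      obtain ⟨S', a1, a2, a3, a4⟩ := key S hS x hx
      exact ⟨S', a1, a2, ⟨x, a3⟩, disjoint_left.2 fun y hy e =>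
        (h.trans_le (Finset.card_le_card (sub x y (a4 y hy)))).not_ge e⟩
    · push Not at h
      exfalso
      obtain ⟨_, ⟨x, hx, rfl⟩, hm⟩ := ((finite_Iic n).subset (t := (fun x => (s x).card) '' S)
        (by rintro _ ⟨x, hx, rfl⟩; exact h x hx)).exists_maximalFor id _ (hne.image _)
      obtain ⟨S', a1, a2, a3, a4⟩ := key S hS x hx
      obtain ⟨z, z1, z2⟩ := hp ((fun z => x + z) ⁻¹' S') (a2.preimage (by fun_prop)) (by simpa)
      have e1 := sub x _ (a4 _ z1)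
      have e2 : s x = s (x + z) := Finset.eq_of_subset_of_card_le e1
        (hm ⟨_, a1 z1, rfl⟩ (Finset.card_le_card e1))
      have e3 : q (x + z) = q x :=
        b.ext_elem fun i => by
          by_cases hi : i ∈ s x
          · exact a4 _ z1 i hi
          · rw [Finsupp.notMem_support_iff.1 hi, 
              Finsupp.notMem_support_iff.1 (show i ∉ s (x + z) from e2 ▸ hi)]
      exact z2 (by simpa using e3)
  exact hy _ (le_refl (s y).card)

theorem exists_phi (hG : SSP G) (p : ℕ) [Fact p.Prime]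
    (hp : ∀ S : Set G, IsGδ S → 0 ∈ S → ∃ x ∈ S, ∀ y, x ≠ p • y) :
    ∃ φ : G →+ ZMod p, ∀ T : Set G, IsGδ T → 0 ∈ T → ∃ t ∈ T, φ t ≠ 0 := by
  let H : AddSubgroup G := (nsmulAddMonoidHom p).range
  let _ : Module (ZMod p) (G ⧸ H) := QuotientAddGroup.zmodModule fun x => ⟨x, rfl⟩
  refine exists_phi' hG p (QuotientAddGroup.mk' H) fun S hS h0 => ?_
  obtain ⟨x, hx, h⟩ := hp S hS h0
  refine ⟨x, hx, fun e => ?_⟩
  obtain ⟨w, hw⟩ := (QuotientAddGroup.eq_zero_iff x).1 e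
  exact h w hw.symm

theorem mult {p : ℕ} [Fact p.Prime] (a t : ZMod p) (ht : t ≠ 0) : ∃ m < p, a + m • t = 0 :=
  ⟨(-a / t).val, ZMod.val_lt _, by
    rw [nsmul_eq_mul, ZMod.natCast_zmod_val, div_mul_cancel₀ _ ht, add_neg_cancel]⟩

theorem main (hG : SSP G) (p : ℕ) [Fact p.Prime]
    (hp : ∀ S : Set G, IsGδ S → 0 ∈ S → ∃ x ∈ S, ∀ y, x ≠ p • y) :
    ∃ H : AddSubgroup G, H ≠ ⊤ ∧ Dense (H : Set G) ∧ SSP H := by
  classical
  obtain ⟨φ, hφ⟩ := exists_phi hG p hp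
  have hit : ∀ S : Set G, IsGδ S → ∀ x ∈ S, ∃ y ∈ S, φ y = 0 := fun S hS x hx => by
    obtain ⟨t, t1, t2⟩ := hφ (⋂ m : ℕ, (fun t => x + m • t) ⁻¹' S)
      (.iInter fun m => hS.preimage (by fun_prop)) (by simpa)
    obtain ⟨m, -, hm⟩ := mult (φ x) (φ t) t2
    exact ⟨_, mem_iInter.1 t1 m, by simpa using hm⟩
  refine ⟨φ.ker, fun e => ?_, dense_iff_inter_open.2 fun U hU ⟨x, hx⟩ => ?_, fun U hU => ?_⟩
  · obtain ⟨t, -, h⟩ := hφ univ .univ trivial
    exact h (show t ∈ φ.ker from e ▸ trivial)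
  · obtain ⟨y, h1, h2⟩ := hit U hU.isGδ x hx
    exact ⟨y, h1, h2⟩
  choose O o1 o2 using fun n => isOpen_induced_iff.1 (hU n).1
  choose u hu using fun n => (hU n).2
  obtain ⟨x, hx, ψ, a, hψ, ha⟩ := hG O fun n => ⟨o1 n, (u n).1, by have := hu n; rwa [← o2] at this⟩
  obtain ⟨b, b1, b2⟩ := hit (⋂ n, (fun t => x n + (t - a)) ⁻¹' O n)
    (.iInter fun n => ((o1 n).preimage (by fun_prop)).isGδ) a (by simpa)
  let y : ℕ → G := fun n => x n + (b - a)
  have y1 : ∀ n, y n ∈ O n := fun n => mem_iInter.1 b1 n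
  have y2 : Tendsto (y ∘ ψ) atTop (𝓝 b) := by
    simpa [y, Function.comp_def] using ha.add_const (b - a)
  suffices ∃ w : ℕ → G, (∀ n, w n ∈ O n ∧ φ (w n) = 0) ∧ Tendsto (w ∘ ψ) atTop (𝓝 b) by
    obtain ⟨w, w1, w2⟩ := this
    exact ⟨fun n => ⟨w n, (w1 n).2⟩, fun n => by rw [← o2]; exact (w1 n).1, ψ, ⟨b, b2⟩, hψ,
      tendsto_subtype_rng.2 w2⟩
  by_cases hc : ∀ᶠ n in atTop, φ (y (ψ n)) = 0
  · refine ⟨fun n => if φ (y n) = 0 then y n else u n, fun n => ?_, y2.congr' ?_⟩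
    · by_cases h : φ (y n) = 0
      · simp only [if_pos h]; exact ⟨y1 n, h⟩
      · simp only [if_neg h]; exact ⟨by have := hu n; rwa [← o2] at this, (u n).2⟩
    · filter_upwards [hc] with n hn
      simp [hn]
  · have hf : ∃ᶠ n in atTop, φ (y (ψ n) - b) ≠ 0 := by
      simpa only [map_sub, b2, sub_zero, not_eventually] using hc
    have c0 : Tendsto (fun n => y (ψ n) - b) atTop (𝓝 0) := by simpa using y2.sub_const b
    have ev : ∀ W ∈ 𝓝 (0 : G), ∀ᶠ k in atTop, ∀ m ∈ Iio p, m • (y (ψ k) - b) ∈ W := fun W hW =>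
      (eventually_all_finite (finite_Iio p)).2 fun m _ =>
        (by simpa using c0.const_smul m : Tendsto (fun n => m • (y (ψ n) - b)) atTop (𝓝 0)) hW
    have : ∀ n, ∃ k ≥ n, ∃ m < p, y n + m • (y (ψ k) - b) ∈ O n ∧
        φ (y n + m • (y (ψ k) - b)) = 0 := fun n => by
      have h1 := ev ((fun t => y n + t) ⁻¹' O n)
        (((o1 n).preimage (by fun_prop)).mem_nhds (by simpa using y1 n))
      obtain ⟨k, k1, k2, k3⟩ := (hf.and_eventually (h1.and (eventually_ge_atTop n))).exists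
      obtain ⟨m, m1, m2⟩ := mult (φ (y n)) _ k1
      exact ⟨k, k3, m, m1, k2 m m1, by rw [map_add, map_nsmul]; exact m2⟩
    choose k k1 m m1 h1 h2 using this
    refine ⟨_, fun n => ⟨h1 n, h2 n⟩, ?_⟩
    have e : Tendsto (fun n => m n • (y (ψ (k n)) - b)) atTop (𝓝 0) := tendsto_def.2 fun W hW => by
      filter_upwards [(tendsto_atTop_mono k1 tendsto_id).eventually (ev W hW)] with n hn
      exact hn _ (m1 n)
    simpa [Function.comp_def] using y2.add (e.comp hψ.tendsto_atTop)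

theorem metr [T2Space G] (hG : SSP G) (h0 : IsGδ ({0} : Set G)) :
    TopologicalSpace.MetrizableSpace G := by
  obtain ⟨U, hU, e⟩ := h0.eq_iInter_nat
  choose t t1 t2 t3 using fun j => exists_mem_nhds_isClosed_subset
    ((hU j).mem_nhds (mem_iInter.1 (e ▸ mem_singleton (0 : G)) j))
  let V : ℕ → Set G := fun n => interior (⋂ j ∈ Iic n, t j)
  have hV : ∀ n, V n ∈ 𝓝 (0 : G) := fun n =>
    interior_mem_nhds.2 ((biInter_mem (finite_Iic n)).2 fun j _ => t1 j)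
  have hb : (𝓝 (0 : G)).HasBasis (fun _ => True) V := ⟨fun W => ⟨fun hW => by
    by_contra hn
    push Not at hn
    obtain ⟨C, c1, c2, c3⟩ := exists_mem_nhds_isClosed_subset hW
    obtain ⟨x, hx, ψ, a, hψ, ha⟩ := hG (fun n => V n \ C) fun n =>
      ⟨isOpen_interior.sdiff c2, by
        obtain ⟨z, z1, z2⟩ := not_subset.1 (hn n trivial)
        exact ⟨z, z1, fun h => z2 (c3 h)⟩⟩
    have : a ∈ ({0} : Set G) := e ▸ mem_iInter.2 fun j => t3 j ((t2 j).mem_of_tendsto ha (by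
      filter_upwards [eventually_ge_atTop j] with n hn
      exact mem_iInter₂.1 (interior_subset (hx (ψ n)).1) j (hn.trans (hψ.id_le n))))
    rw [show a = 0 from this] at ha
    obtain ⟨n, hn⟩ := (ha.eventually c1).exists
    exact (hx _).2 hn, fun ⟨n, _, h⟩ => mem_of_superset (hV n) h⟩⟩
  have : (𝓝 (0 : G)).IsCountablyGenerated := HasCountableBasis.isCountablyGenerated ⟨hb, to_countable _⟩
  let _ := IsTopologicalAddGroup.rightUniformSpace G
  have : IsUniformAddGroup G := isUniformAddGroup_of_addCommGroup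
  have := IsUniformAddGroup.uniformity_countably_generated (α := G)
  exact UniformSpace.metrizableSpace

theorem result (G : Type) [AddCommGroup G] [TopologicalSpace G] [IsTopologicalAddGroup G]
    [T2Space G] (hG : SSP G) (p : ℕ) (hp : p.Prime)
    (h : (∀ S : Set G, IsGδ S → 0 ∈ S → ∃ x ∈ S, ∀ y, x ≠ p • y) ∨
      ((∀ y : G, p • y = 0) ∧ ¬ TopologicalSpace.MetrizableSpace G)) :
    ∃ H : AddSubgroup G, H ≠ ⊤ ∧ Dense (H : Set G) ∧ SSP H := by
  have : Fact p.Prime := ⟨hp⟩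
  refine main hG p (h.elim id fun ⟨h1, h2⟩ S hS h0 => ?_)
  by_contra hn
  push Not at hn
  refine h2 (metr hG ?_)
  have : S = {0} := eq_singleton_iff_unique_mem.2 ⟨h0, fun x hx => by
    obtain ⟨y, rfl⟩ := hn x hx; exact h1 y⟩
  exact this ▸ hS

end Pool.Agent.Results.MP_750e22_gt.PrimeCase
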